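import Mathlib

set_option autoImplicit false

/-!
Packed evaluation of exponent sums modulo three.

A map `σ` from primes to `{0, 1, 2}` is packed as a number `VV σ ps` with one hexadecimal digit per
prime (`0`, `3`, `C`), the exponents of an integer are packed as `(go ps n).2` with digits `0`, `9`,
`6`; then `(VV σ ps &&& E) % 3` is the sum of `σ p` times the exponent of `p`.
-/

namespace Y297.Py

/-- digit of a value -/
def vd : ℕ → ℕ
  | 0 => 0
  | 1 => 3
  | _ => 12

/-- digit of an exponent -/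
def ed : ℕ → ℕ
  | 0 => 0
  | 1 => 9
  | _ => 6

/-- packed values -/
def VV (σ : ℕ → ℕ) : List ℕ → ℕ
  | [] => 0
  | p :: ps => vd (σ p) + 16 * VV σ ps

/-- strip the factor `p` from `n`: exponent modulo three and the rest -/
def strip (p : ℕ) : ℕ → ℕ → ℕ → ℕ × ℕ
  | 0, n, e => (e, n)
  | k + 1, n, e => bif Nat.beq (n % p) 0 then strip p k (n / p) ((e + 1) % 3) else (e, n)

/-- packed exponents of `n` and the part of `n` prime to the list -/
def go : List ℕ → ℕ → ℕ × ℕ
  | [], n => (n, 0)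
  | p :: ps, n =>
    match strip p 24 n 0 with
    | (e, m) => match go ps m with
      | (r, E) => (r, ed e + 16 * E)

theorem and_digit (a b x y : ℕ) (ha : a < 16) (hb : b < 16) :
    (a + 16 * x) &&& (b + 16 * y) = (a &&& b) + 16 * (x &&& y) := by
  have h1 : ((a + 16 * x) &&& (b + 16 * y)) % 2 ^ 4 = a &&& b := by
    rw [Nat.and_mod_two_pow]
    congr 1 <;> omega
  have h2 : ((a + 16 * x) &&& (b + 16 * y)) / 2 ^ 4 = x &&& y := by
    rw [Nat.and_div_two_pow]
    congr 1 <;> omega
  have := Nat.div_add_mod ((a + 16 * x) &&& (b + 16 * y)) (2 ^ 4)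
  rw [h1, h2] at this
  omega

theorem vd_lt (a : ℕ) : vd a < 16 := by
  rcases a with _ | _ | a <;> simp [vd]

theorem ed_lt (a : ℕ) : ed a < 16 := by
  rcases a with _ | _ | a <;> simp [ed]

theorem digit_mod (a e : ℕ) (ha : a < 3) (he : e < 3) : (vd a &&& ed e) % 3 = (a * e) % 3 := by
  interval_cases a <;> interval_cases e <;> rfl

variable {G : Type*} [Group G]

/-- completely multiplicative maps on the positive integers -/
def CM (f : ℕ → G) : Prop := ∀ m n : ℕ, 0 < m → 0 < n → f (m * n) = f m * f n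

theorem CM.one {f : ℕ → G} (hf : CM f) : f 1 = 1 := by
  have := hf 1 1 one_pos one_pos
  simpa using this

theorem strip_spec {f : ℕ → G} (hf : CM f) (g : G) (hg : g ^ 3 = 1) (p s : ℕ) (hp : 1 < p)
    (hs : f p = g ^ s) : ∀ (k n e : ℕ), 0 < n → e < 3 →
      (strip p k n e).1 < 3 ∧ 0 < (strip p k n e).2 ∧
        g ^ (s * e) * f n = g ^ (s * (strip p k n e).1) * f (strip p k n e).2 := by
  intro k
  induction k with
  | zero => intro n e hn he; simp [strip, hn, he]
  | succ k ih =>
    intro n e hn he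
    unfold strip
    cases h0 : Nat.beq (n % p) 0
    swap
    · have h : n % p = 0 := Nat.eq_of_beq_eq_true h0
      simp only [cond_true]
      have hdvd : p ∣ n := Nat.dvd_of_mod_eq_zero h
      have hnp : 0 < n / p := Nat.div_pos (Nat.le_of_dvd hn hdvd) (by omega)
      obtain ⟨h1, h2, h3⟩ := ih (n / p) ((e + 1) % 3) hnp (Nat.mod_lt _ (by norm_num))
      refine ⟨h1, h2, ?_⟩
      rw [← h3]
      have hn' : f n = g ^ s * f (n / p) := by
        rw [← hs, ← hf p (n / p) (by omega) hnp, Nat.mul_div_cancel' hdvd]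
      rw [hn', ← mul_assoc, ← pow_add]
      congr 1
      have h4 : s * e + s = s * ((e + 1) % 3) + 3 * (s * ((e + 1) / 3)) := by
        have := Nat.div_add_mod (e + 1) 3
        calc s * e + s = s * (e + 1) := by ring
          _ = s * (3 * ((e + 1) / 3) + (e + 1) % 3) := by rw [this]
          _ = _ := by ring
      rw [h4, pow_add, pow_mul g 3, hg, one_pow, mul_one]
    · exact ⟨he, hn, rfl⟩

theorem go_spec {f : ℕ → G} (hf : CM f) (g : G) (hg : g ^ 3 = 1) (σ : ℕ → ℕ)
    (hσ : ∀ p, σ p < 3) (hσf : ∀ p, 0 < p → f p = g ^ σ p) :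
    ∀ (ps : List ℕ), (∀ p ∈ ps, 1 < p) → ∀ n, 0 < n →
      0 < (go ps n).1 ∧ f n = g ^ ((VV σ ps &&& (go ps n).2) % 3) * f (go ps n).1 := by
  intro ps
  induction ps with
  | nil => intro _ n hn; simp [go, hn]
  | cons p ps ih =>
    intro hps n hn
    have hp : 1 < p := hps p (by simp)
    obtain ⟨h1, h2, h3⟩ := strip_spec hf g hg p (σ p) hp (hσf p (by omega)) 24 n 0 hn (by norm_num)
    obtain ⟨h4, h5⟩ := ih (fun q hq => hps q (by simp [hq])) (strip p 24 n 0).2 h2
    have hgo : go (p :: ps) n = ((go ps (strip p 24 n 0).2).1,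
        ed (strip p 24 n 0).1 + 16 * (go ps (strip p 24 n 0).2).2) := rfl
    rw [hgo]
    refine ⟨h4, ?_⟩
    have h6 : f n = g ^ (σ p * (strip p 24 n 0).1) * f (strip p 24 n 0).2 := by
      simpa using h3
    rw [h6, h5, ← mul_assoc, ← pow_add]
    congr 1
    set e := (strip p 24 n 0).1 with he
    set E := (go ps (strip p 24 n 0).2).2 with hE
    have h7 : VV σ (p :: ps) &&& (ed e + 16 * E) = (vd (σ p) &&& ed e) + 16 * (VV σ ps &&& E) :=
      and_digit _ _ _ _ (vd_lt _) (ed_lt _)
    change g ^ (σ p * e + (VV σ ps &&& E) % 3) = g ^ ((VV σ (p :: ps) &&& (ed e + 16 * E)) % 3)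
    rw [h7]
    have h8 := digit_mod (σ p) e (hσ p) h1
    have h9 : (σ p * e + (VV σ ps &&& E) % 3) % 3 =
        (((vd (σ p) &&& ed e) + 16 * (VV σ ps &&& E)) % 3) % 3 := by omega
    have key : ∀ m, g ^ m = g ^ (m % 3) := by
      intro m
      conv_lhs => rw [← Nat.div_add_mod m 3]
      rw [pow_add, pow_mul, hg, one_pow, one_mul]
    rw [key (σ p * e + (VV σ ps &&& E) % 3), h9, ← key]

end Y297.Py
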