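import Pool.Agent.Y297.Py.Data

set_option autoImplicit false

/-! Completely multiplicative maps to groups of order three. -/

namespace Y297.Py

theorem three {G : Type*} [Group G] (hG : Nat.card G = 3) (f : ℕ → G) (hf : CM f) :
    ∃ x y z : ℕ, 0 < x ∧ 0 < y ∧ z ≤ 714025 ∧ x ^ 2 + y ^ 2 = z ^ 2 ∧ f x = f y ∧ f y = f z := by
  have : Fact (Nat.Prime 3) := ⟨Nat.prime_three⟩
  have : Finite G := Nat.finite_of_card_ne_zero (by omega)
  have : IsCyclic G := isCyclic_of_prime_card hG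
  obtain ⟨g, hg⟩ := IsCyclic.exists_generator (α := G)
  have hg3 : g ^ 3 = 1 := by
    rw [← hG]; exact pow_card_eq_one'
  have hex : ∀ x : G, ∃ s, s < 3 ∧ x = g ^ s := by
    intro x
    have h1 : x ∈ Submonoid.powers g :=
      ((isOfFinOrder_of_finite g).mem_powers_iff_mem_zpowers).2 (hg x)
    obtain ⟨n, hn⟩ := h1
    refine ⟨n % 3, Nat.mod_lt _ (by norm_num), ?_⟩
    rw [← hn]
    change g ^ n = _
    conv_lhs => rw [← Nat.div_add_mod n 3]
    rw [pow_add, pow_mul, hg3, one_pow, one_mul]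
  choose σ hσ hσf using hex
  exact main ps ps_gt 714025 288 EX EY EZ TX TY TZ 16 tree (by norm_num) tab_ok
    (by rw [tree_ok]; norm_num) g hg3 f hf (fun p => σ (f p)) (fun p => hσ _) (fun p _ => hσf _)

end Y297.Py
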