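import Pool.Agent.Y297.Py.Bits

set_option autoImplicit false

/-!
A checker for decision trees over assignments of values in `{0, 1, 2}` to finitely many primes.
-/

namespace Y297.Py

/-- evaluate the argument first -/
def force {α : Type} (n : ℕ) (f : ℕ → α) : α := Nat.rec (f 0) (fun t _ => f (t + 1)) n

theorem force_eq {α : Type} (n : ℕ) (f : ℕ → α) : force n f = f n := by
  cases n <;> rfl

/-- entry of a table with slots of 256 bits -/
def slot (T c : ℕ) : ℕ := (T >>> (256 * c)) % 2 ^ 256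

/-- leaf test -/
def leafOK (EX EY EZ c V M : ℕ) : Bool :=
  force (slot EX c) fun X => force (slot EY c) fun Y => force (slot EZ c) fun Z =>
    Nat.beq (X &&& M) X && Nat.beq (Y &&& M) Y && Nat.beq (Z &&& M) Z &&
      Nat.beq ((V &&& X) % 3) ((V &&& Y) % 3) && Nat.beq ((V &&& Y) % 3) ((V &&& Z) % 3)

/-- run the tree -/
def run (N EX EY EZ : ℕ) (k : ℕ) : ℕ → ℕ → ℕ → ℕ :=
  Nat.rec (fun _ _ _ => 0) (fun _ ih s V M =>
    bif Nat.blt (s % 512) N then
      (bif leafOK EX EY EZ (s % 512) V M then s / 512 else 0)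
    else
      force (4 * (s % 512 - N)) fun i =>
      force (M ||| (15 <<< i)) fun M' =>
      force (ih (s / 512) V M') fun s1 =>
      force (V ||| (3 <<< i)) fun V1 =>
      force (ih s1 V1 M') fun s2 =>
      force (V ||| (12 <<< i)) fun V2 =>
        ih s2 V2 M') k

theorem run_succ (N EX EY EZ k s V M : ℕ) : run N EX EY EZ (k + 1) s V M =
    bif Nat.blt (s % 512) N then
      (bif leafOK EX EY EZ (s % 512) V M then s / 512 else 0)
    else
      run N EX EY EZ k (run N EX EY EZ k (run N EX EY EZ k (s / 512) V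
        (M ||| (15 <<< (4 * (s % 512 - N))))) (V ||| (3 <<< (4 * (s % 512 - N))))
        (M ||| (15 <<< (4 * (s % 512 - N))))) (V ||| (12 <<< (4 * (s % 512 - N))))
        (M ||| (15 <<< (4 * (s % 512 - N)))) := by
  have : run N EX EY EZ (k + 1) s V M = 
    bif Nat.blt (s % 512) N then
      (bif leafOK EX EY EZ (s % 512) V M then s / 512 else 0)
    else
      force (4 * (s % 512 - N)) fun i =>
      force (M ||| (15 <<< i)) fun M' =>
      force (run N EX EY EZ k (s / 512) V M') fun s1 =>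
      force (V ||| (3 <<< i)) fun V1 =>
      force (run N EX EY EZ k s1 V1 M') fun s2 =>
      force (V ||| (12 <<< i)) fun V2 =>
        run N EX EY EZ k s2 V2 M' := rfl
  rw [this]
  simp only [force_eq]

theorem run_zero (N EX EY EZ : ℕ) (hN : 0 < N) : ∀ k V M, run N EX EY EZ k 0 V M = 0 := by
  intro k V M
  cases k with
  | zero => rfl
  | succ k =>
    rw [run_succ]
    have h : Nat.blt (0 % 512) N = true := by
      rw [Nat.zero_mod]; exact Nat.ble_eq_true_of_le hN
    rw [h, cond_true]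
    cases leafOK EX EY EZ (0 % 512) V M <;> simp

theorem digit_at (σ : ℕ → ℕ) : ∀ (ps : List ℕ) (i : ℕ),
    ∃ v, (v = 0 ∨ v = 1 ∨ v = 2) ∧ VV σ ps &&& (15 <<< (4 * i)) = vd v <<< (4 * i) := by
  intro ps
  induction ps with
  | nil => intro i; exact ⟨0, Or.inl rfl, by simp [VV, vd]⟩
  | cons p ps ih =>
    intro i
    cases i with
    | zero =>
      have h : VV σ (p :: ps) &&& (15 + 16 * 0) = (vd (σ p) &&& 15) + 16 * (VV σ ps &&& 0) :=
        and_digit _ _ _ _ (vd_lt _) (by norm_num)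
      rw [Nat.and_zero, Nat.mul_zero, Nat.add_zero, Nat.add_zero] at h
      rcases hσ : σ p with _ | _ | a
      · refine ⟨0, Or.inl rfl, ?_⟩
        rw [Nat.mul_zero, Nat.shiftLeft_zero, Nat.shiftLeft_zero, h, hσ]; rfl
      · refine ⟨1, Or.inr (Or.inl rfl), ?_⟩
        rw [Nat.mul_zero, Nat.shiftLeft_zero, Nat.shiftLeft_zero, h, hσ]; rfl
      · refine ⟨2, Or.inr (Or.inr rfl), ?_⟩
        rw [Nat.mul_zero, Nat.shiftLeft_zero, Nat.shiftLeft_zero, h, hσ]
        have : vd (a + 1 + 1) = 12 := rfl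
        rw [this]; rfl
    | succ i =>
      obtain ⟨v, hv, h⟩ := ih i
      refine ⟨v, hv, ?_⟩
      have h1 : ∀ a : ℕ, a <<< (4 * (i + 1)) = 0 + 16 * (a <<< (4 * i)) := by
        intro a
        rw [Nat.shiftLeft_eq, Nat.shiftLeft_eq, show 4 * (i + 1) = 4 * i + 4 by ring, pow_add]
        ring
      rw [h1 15, h1 (vd v), ← h]
      have h2 := and_digit (vd (σ p)) 0 (VV σ ps) (15 <<< (4 * i)) (vd_lt _) (by norm_num)
      rw [Nat.and_zero] at h2
      exact h2

/-- the condition proved at a leaf -/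
def Good (σ : ℕ → ℕ) (ps : List ℕ) (EX EY EZ c : ℕ) : Prop :=
  (VV σ ps &&& slot EX c) % 3 = (VV σ ps &&& slot EY c) % 3 ∧
    (VV σ ps &&& slot EY c) % 3 = (VV σ ps &&& slot EZ c) % 3

theorem leaf_sound (σ : ℕ → ℕ) (ps : List ℕ) (EX EY EZ c V M : ℕ)
    (h : leafOK EX EY EZ c V M = true) (hV : V = VV σ ps &&& M) : Good σ ps EX EY EZ c := by
  unfold leafOK at h
  simp only [force_eq, Bool.and_eq_true] at h
  obtain ⟨⟨⟨⟨h1, h2⟩, h3⟩, h4⟩, h5⟩ := h
  have h1 := Nat.eq_of_beq_eq_true h1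
  have h2 := Nat.eq_of_beq_eq_true h2
  have h3 := Nat.eq_of_beq_eq_true h3
  have h4 := Nat.eq_of_beq_eq_true h4
  have h5 := Nat.eq_of_beq_eq_true h5
  have key : ∀ X, X &&& M = X → V &&& X = VV σ ps &&& X := by
    intro X hX
    rw [hV, Nat.and_assoc, Nat.and_comm M X, hX]
  rw [key _ h1, key _ h2] at h4
  rw [key _ h2, key _ h3] at h5
  exact ⟨h4, h5⟩

theorem run_sound (σ : ℕ → ℕ) (ps : List ℕ) (N EX EY EZ : ℕ) (hN : 0 < N) :
    ∀ k s V M, run N EX EY EZ k s V M ≠ 0 → V = VV σ ps &&& M →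
      ∃ c, c < N ∧ Good σ ps EX EY EZ c := by
  intro k
  induction k with
  | zero => intro s V M h; exact absurd rfl h
  | succ k ih =>
    intro s V M h hV
    rw [run_succ] at h
    cases hb : Nat.blt (s % 512) N
    · rw [hb, cond_false] at h
      set i := s % 512 - N with hi
      obtain ⟨v, hv, hd⟩ := digit_at σ ps i
      have hM : VV σ ps &&& (M ||| 15 <<< (4 * i)) = V ||| vd v <<< (4 * i) := by
        rw [Nat.and_or_distrib_left, ← hV, hd]
      rcases hv with rfl | rfl | rfl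
      · apply ih (s / 512) V (M ||| 15 <<< (4 * i))
        · intro h0
          rw [h0, run_zero _ _ _ _ hN, run_zero _ _ _ _ hN] at h
          exact h rfl
        · rw [hM]; simp [vd]
      · apply ih (run N EX EY EZ k (s / 512) V (M ||| 15 <<< (4 * i)))
          (V ||| 3 <<< (4 * i)) (M ||| 15 <<< (4 * i))
        · intro h0
          rw [h0, run_zero _ _ _ _ hN] at h
          exact h rfl
        · rw [hM]; rfl
      · apply ih _ (V ||| 12 <<< (4 * i)) (M ||| 15 <<< (4 * i)) h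
        rw [hM]; rfl
    · rw [hb, cond_true] at h
      refine ⟨s % 512, Nat.le_of_ble_eq_true hb, ?_⟩
      cases hl : leafOK EX EY EZ (s % 512) V M
      · rw [hl, cond_false] at h; exact absurd rfl h
      · exact leaf_sound σ ps EX EY EZ _ V M hl hV

/-- table entry check -/
def chk (ps : List ℕ) (B EX EY EZ TX TY TZ c : ℕ) : Bool :=
  force (slot TX c) fun x => force (slot TY c) fun y => force (slot TZ c) fun z =>
    Nat.blt 0 x && Nat.blt 0 y && Nat.ble z B && Nat.beq (x * x + y * y) (z * z) &&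
    (match go ps x with | (r, E) => Nat.beq r 1 && Nat.beq E (slot EX c)) &&
    (match go ps y with | (r, E) => Nat.beq r 1 && Nat.beq E (slot EY c)) &&
    (match go ps z with | (r, E) => Nat.beq r 1 && Nat.beq E (slot EZ c))

/-- check of all the entries -/
def chkAll (ps : List ℕ) (B EX EY EZ TX TY TZ : ℕ) (n : ℕ) : Bool :=
  Nat.rec true (fun c ih => chk ps B EX EY EZ TX TY TZ c && ih) n

theorem chkAll_sound (ps : List ℕ) (B EX EY EZ TX TY TZ : ℕ) : ∀ n,
    chkAll ps B EX EY EZ TX TY TZ n = true → ∀ c < n, chk ps B EX EY EZ TX TY TZ c = true := by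
  intro n
  induction n with
  | zero => intro _ c hc; omega
  | succ n ih =>
    intro h c hc
    have h' : (chk ps B EX EY EZ TX TY TZ n && chkAll ps B EX EY EZ TX TY TZ n) = true := h
    rw [Bool.and_eq_true] at h'
    rcases Nat.lt_succ_iff_lt_or_eq.1 hc with h1 | h1
    · exact ih h'.2 c h1
    · rw [h1]; exact h'.1

/-- the main consequence of the two checks -/
theorem main (ps : List ℕ) (hps : ∀ p ∈ ps, 1 < p) (B N EX EY EZ TX TY TZ k s : ℕ) (hN : 0 < N)
    (h1 : chkAll ps B EX EY EZ TX TY TZ N = true) (h2 : run N EX EY EZ k s 0 0 ≠ 0)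
    {G : Type*} [Group G] (g : G) (hg : g ^ 3 = 1) (f : ℕ → G) (hf : CM f)
    (σ : ℕ → ℕ) (hσ : ∀ p, σ p < 3) (hσf : ∀ p, 0 < p → f p = g ^ σ p) :
    ∃ x y z : ℕ, 0 < x ∧ 0 < y ∧ z ≤ B ∧ x ^ 2 + y ^ 2 = z ^ 2 ∧ f x = f y ∧ f y = f z := by
  obtain ⟨c, hc, hgood⟩ := run_sound σ ps N EX EY EZ hN k s 0 0 h2 (by simp)
  have h3 := chkAll_sound ps B EX EY EZ TX TY TZ N h1 c hc
  unfold chk at h3
  simp only [force_eq, Bool.and_eq_true] at h3
  obtain ⟨⟨⟨⟨⟨⟨hx, hy⟩, hz⟩, hxyz⟩, ex⟩, ey⟩, ez⟩ := h3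
  have hx : 0 < slot TX c := Nat.le_of_ble_eq_true hx
  have hy : 0 < slot TY c := Nat.le_of_ble_eq_true hy
  have hz : slot TZ c ≤ B := Nat.le_of_ble_eq_true hz
  have hxyz := Nat.eq_of_beq_eq_true hxyz
  have hz0 : 0 < slot TZ c := by
    rcases Nat.eq_zero_or_pos (slot TZ c) with h | h
    · rw [h] at hxyz
      have : 0 < slot TX c * slot TX c := Nat.mul_pos hx hx
      omega
    · exact h
  have e1 := Nat.eq_of_beq_eq_true ex.1
  have e2 := Nat.eq_of_beq_eq_true ex.2
  have e3 := Nat.eq_of_beq_eq_true ey.1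
  have e4 := Nat.eq_of_beq_eq_true ey.2
  have e5 := Nat.eq_of_beq_eq_true ez.1
  have e6 := Nat.eq_of_beq_eq_true ez.2
  have fx := (go_spec hf g hg σ hσ hσf ps hps _ hx).2
  have fy := (go_spec hf g hg σ hσ hσf ps hps _ hy).2
  have fz := (go_spec hf g hg σ hσ hσf ps hps _ hz0).2
  rw [e1, e2, hf.one, mul_one] at fx
  rw [e3, e4, hf.one, mul_one] at fy
  rw [e5, e6, hf.one, mul_one] at fz
  refine ⟨slot TX c, slot TY c, slot TZ c, hx, hy, hz, by rw [sq, sq, sq]; exact hxyz, ?_, ?_⟩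
  · rw [fx, fy, hgood.1]
  · rw [fy, fz, hgood.2]

end Y297.Py
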